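import Pool.Agent.Work.MP_bd2638_an.AllM
import Pool.Agent.Work.MP_bd2638_an.AllS
import Pool.Agent.Work.MP_bd2638_an.AssemblyR

/-!
# MP_bd2638_an: sums of Lyapunov exponents at periodic points and transitivity

`M` is a compact connected smooth manifold without boundary, `f` a `C^1` Anosov diffeomorphism of `M`
whose Jacobian determinant is Hölder continuous. Either there are periodic points `p`, `q` with
`Λ^s(p) < - Λ^u(p)` and `- Λ^u(q) < Λ^s(q)`, or `Λ^s = - Λ^u` at all periodic points and `f` is
transitive. The definitions are in `Pool.Agent.Work.MP_bd2638_an.{Sys, Stmt, StmtR}`.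
-/

set_option autoImplicit false

namespace Pool.Agent.Results.MP_bd2638_an.PeriodicExponents

open Pool.AN

theorem result :
    ∀ (d : ℕ) (M : Type) [TopologicalSpace M] [T2Space M] [CompactSpace M] [ConnectedSpace M]
      [ChartedSpace (EE d) M] [Mfd d M] (f : M → M) (P : M → LL d) (α : ℝ),
      IsDiffeo d f → Anosov f P → 0 < α → HolderDet d f α →
      ((∃ (k : ℕ) (p : M), 0 < k ∧ f^[k] p = p ∧ Ls f P k p < - Lu f P k p) ∧
        ∃ (k : ℕ) (p : M), 0 < k ∧ f^[k] p = p ∧ - Lu f P k p < Ls f P k p) ∨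
      ((∀ (k : ℕ) (p : M), 0 < k → f^[k] p = p → Ls f P k p = - Lu f P k p) ∧ Trans f) :=
  anr_of (anq_of_sys t_SYS)

end Pool.Agent.Results.MP_bd2638_an.PeriodicExponents
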